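import Mathlib

/-!
Free Jordan rings over the integers and the varieties they generate.
-/

namespace Pool.Agent.helper3.JC

open FreeNonUnitalNonAssocAlgebra

/-- `R` is a Jordan ring: `x y = y x` and `(x² y) x = x² (y x)`. -/
def JordanRing (R : Type*) [NonUnitalNonAssocRing R] : Prop :=
  (∀ x y : R, x * y = y * x) ∧ ∀ x y : R, ((x * x) * y) * x = (x * x) * (y * x)

/-- The defining relations `x y = y x` and `(x² y) x = x² (y x)` of Jordan rings, imposed on all
elements of the free nonassociative ring on `X`. -/
inductive JRel (X : Type) :
    FreeNonUnitalNonAssocAlgebra ℤ X → FreeNonUnitalNonAssocAlgebra ℤ X → Prop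
  | comm (x y : FreeNonUnitalNonAssocAlgebra ℤ X) : JRel X (x * y) (y * x)
  | jordan (x y : FreeNonUnitalNonAssocAlgebra ℤ X) :
      JRel X (((x * x) * y) * x) ((x * x) * (y * x))

/-- The free Jordan ring (over the integers, not unital) on the set `X` of free generators: the
free nonassociative ring on `X` modulo the congruence generated by `JRel`. -/
abbrev FreeJordan (X : Type) : Type := (ringConGen (JRel X)).Quotient

/-- The ring `R` satisfies the identity `f = 0`, where `f` is an element of the free
nonassociative ring in countably many variables: every substitution of elements of `R` for the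
variables sends `f` to `0`. -/
def Satisfies (R : Type*) [NonUnitalNonAssocRing R] (f : FreeNonUnitalNonAssocAlgebra ℤ ℕ) :
    Prop := ∀ a : ℕ → R, lift ℤ a f = 0

/-- `R` belongs to the variety `C_n` generated by the free Jordan ring on `n` generators: `R`
satisfies every identity of that ring. -/
def InVariety (n : ℕ) (R : Type*) [NonUnitalNonAssocRing R] : Prop :=
  ∀ f : FreeNonUnitalNonAssocAlgebra ℤ ℕ, Satisfies (FreeJordan (Fin n)) f → Satisfies R f

end Pool.Agent.helper3.JC
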