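import Mathlib
import Pool.Agent.helper3.JC.Defs

/-!
Basic facts on free Jordan rings and the varieties they generate.
-/

namespace Pool.Agent.helper3.JC

open FreeNonUnitalNonAssocAlgebra

theorem jordanRing_freeJordan (X : Type) : JordanRing (FreeJordan X) := by
  constructor
  · intro x y
    induction x using Quotient.inductionOn with
    | h x =>
      induction y using Quotient.inductionOn with
      | h y =>
        exact (RingCon.eq (ringConGen (JRel X))).2 (RingConGen.Rel.of _ _ (JRel.comm x y))
  · intro x y
    induction x using Quotient.inductionOn with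
    | h x =>
      induction y using Quotient.inductionOn with
      | h y =>
        exact (RingCon.eq (ringConGen (JRel X))).2 (RingConGen.Rel.of _ _ (JRel.jordan x y))

/-- The congruence `φ x = φ y` of a homomorphism. -/
def kerCon {A B : Type*} [NonUnitalNonAssocRing A] [NonUnitalNonAssocRing B] (φ : A →ₙ+* B) :
    RingCon A where
  r x y := φ x = φ y
  iseqv := ⟨fun _ => rfl, fun h => h.symm, fun h h' => h.trans h'⟩
  add' := by
    intro a b c d h h'
    rw [map_add, map_add]
    exact congrArg₂ (· + ·) h h'
  mul' := by
    intro a b c d h h'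
    rw [map_mul, map_mul]
    exact congrArg₂ (· * ·) h h'

/-- The homomorphism from the free Jordan ring given by images of generators. -/
noncomputable def freeLift {X : Type} {S : Type*} [NonUnitalNonAssocRing S] (hS : JordanRing S)
    (s : X → S) : FreeJordan X →ₙ+* S where
  toFun := Quotient.lift (fun x => lift ℤ s x) (by
    intro a b hab
    have h : ringConGen (JRel X) ≤
        kerCon ((lift ℤ s : FreeNonUnitalNonAssocAlgebra ℤ X →ₙₐ[ℤ] S) :
          FreeNonUnitalNonAssocAlgebra ℤ X →ₙ+* S) := by
      rw [RingCon.ringConGen_le]
      intro x y hxy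
      cases hxy with
      | comm x y =>
        change lift ℤ s (x * y) = lift ℤ s (y * x)
        rw [map_mul, map_mul]
        exact hS.1 _ _
      | jordan x y =>
        change lift ℤ s (((x * x) * y) * x) = lift ℤ s ((x * x) * (y * x))
        simp only [map_mul]
        exact hS.2 _ _
    exact h hab)
  map_zero' := map_zero (lift ℤ s)
  map_add' x y := by
    induction x using Quotient.inductionOn with
    | h x =>
      induction y using Quotient.inductionOn with
      | h y => exact map_add (lift ℤ s) x y
  map_mul' x y := by
    induction x using Quotient.inductionOn with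
    | h x =>
      induction y using Quotient.inductionOn with
      | h y => exact map_mul (lift ℤ s) x y

/-- The `i`-th free generator. -/
noncomputable def fgen {X : Type} (i : X) : FreeJordan X :=
  ((of ℤ i : FreeNonUnitalNonAssocAlgebra ℤ X))

theorem freeLift_fgen {X : Type} {S : Type*} [NonUnitalNonAssocRing S] (hS : JordanRing S)
    (s : X → S) (i : X) : freeLift hS s (fgen i) = s i :=
  lift_of_apply ℤ s i

/-- Substitutions are natural in the ring. -/
theorem lift_map {A B : Type*} [NonUnitalNonAssocRing A] [NonUnitalNonAssocRing B]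
    (ψ : A →ₙ+* B) (a : ℕ → A) (f : FreeNonUnitalNonAssocAlgebra ℤ ℕ) :
    lift ℤ (fun i => ψ (a i)) f = ψ (lift ℤ a f) := by
  let ψ' : A →ₙₐ[ℤ] B :=
    { ψ with map_smul' := fun n x => map_zsmul ψ n x }
  have h : (ψ'.comp (lift ℤ a)) = lift ℤ (fun i => ψ (a i)) := by
    rw [← lift_unique]
    funext i
    change ψ (lift ℤ a (of ℤ i)) = ψ (a i)
    rw [lift_of_apply]
  rw [← h]
  rfl

/-- The rings of every variety `C_n` are Jordan rings. -/
theorem jordanRing_of_inVariety (n : ℕ) (R : Type*) [NonUnitalNonAssocRing R]
    (h : InVariety n R) : JordanRing R := by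
  constructor
  · intro x y
    let X : FreeNonUnitalNonAssocAlgebra ℤ ℕ := of ℤ 0
    let Y : FreeNonUnitalNonAssocAlgebra ℤ ℕ := of ℤ 1
    have hf : Satisfies (FreeJordan (Fin n)) (X * Y - Y * X) := by
      intro a
      rw [map_sub, map_mul, map_mul, sub_eq_zero]
      exact (jordanRing_freeJordan (Fin n)).1 _ _
    have key := h _ hf (fun i => if i = 0 then x else y)
    rw [map_sub, map_mul, map_mul, sub_eq_zero] at key
    simpa [X, Y] using key
  · intro x y
    let X : FreeNonUnitalNonAssocAlgebra ℤ ℕ := of ℤ 0
    let Y : FreeNonUnitalNonAssocAlgebra ℤ ℕ := of ℤ 1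
    have hf : Satisfies (FreeJordan (Fin n)) (((X * X) * Y) * X - (X * X) * (Y * X)) := by
      intro a
      rw [map_sub, sub_eq_zero]
      simp only [map_mul]
      exact (jordanRing_freeJordan (Fin n)).2 _ _
    have key := h _ hf (fun i => if i = 0 then x else y)
    rw [map_sub, sub_eq_zero] at key
    simpa [X, Y] using key

/-- Subrings of rings in `C_n` are in `C_n`. -/
theorem inVariety_of_injective (n : ℕ) {R S : Type*} [NonUnitalNonAssocRing R]
    [NonUnitalNonAssocRing S] (ψ : R →ₙ+* S) (hψ : Function.Injective ψ) (h : InVariety n S) :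
    InVariety n R := by
  intro f hf a
  have key := h f hf (fun i => ψ (a i))
  rw [lift_map ψ a f] at key
  exact hψ (by rw [key, map_zero])

end Pool.Agent.helper3.JC
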