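import Mathlib
import Pool.Agent.helper3.JC.Base

/-!
Algebras given by a multiplication table on a basis.
-/

namespace Pool.Agent.helper3.JC

open FreeNonUnitalNonAssocAlgebra

universe u v w

section Tab

variable {C : Type u} [CommRing C] {J : Type v}

/-- The `C`-module with basis `J` and the product given by the table `τ`. -/
def Tab (_τ : J → J → (J →₀ C)) : Type (max u v) := J →₀ C

variable (τ : J → J → (J →₀ C))

noncomputable instance : AddCommGroup (Tab τ) := inferInstanceAs (AddCommGroup (J →₀ C))

noncomputable instance : Module C (Tab τ) := inferInstanceAs (Module C (J →₀ C))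

/-- The product as a bilinear map. -/
noncomputable def tmul0 : (J →₀ C) →ₗ[C] (J →₀ C) →ₗ[C] (J →₀ C) :=
  Finsupp.linearCombination C
    (fun i => (Finsupp.linearCombination C (τ i) : (J →₀ C) →ₗ[C] (J →₀ C)))

theorem tmul0_single (i j : J) :
    tmul0 τ (Finsupp.single i 1) (Finsupp.single j 1) = τ i j := by
  unfold tmul0
  rw [Finsupp.linearCombination_single, one_smul, Finsupp.linearCombination_single, one_smul]

/-- The product as a bilinear map. -/
noncomputable def tmul : Tab τ →ₗ[C] Tab τ →ₗ[C] Tab τ := tmul0 τ

noncomputable instance : NonUnitalNonAssocRing (Tab τ) where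
  mul x y := tmul τ x y
  left_distrib x y z := map_add (tmul τ x) y z
  right_distrib x y z := by
    change tmul τ (x + y) z = tmul τ x z + tmul τ y z
    rw [map_add, LinearMap.add_apply]
  zero_mul x := by
    change tmul τ 0 x = 0
    rw [map_zero, LinearMap.zero_apply]
  mul_zero x := map_zero (tmul τ x)

theorem tmul_eq (x y : Tab τ) : x * y = tmul τ x y := rfl

instance : IsScalarTower C (Tab τ) (Tab τ) where
  smul_assoc c x y := by
    change tmul τ (c • x) y = c • tmul τ x y
    rw [map_smul, LinearMap.smul_apply]

instance : SMulCommClass C (Tab τ) (Tab τ) where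
  smul_comm c x y := by
    change c • tmul τ x y = tmul τ x (c • y)
    rw [map_smul]

/-- The basis element. -/
noncomputable def te (i : J) : Tab τ := Finsupp.single i (1 : C)

theorem te_mul_te (i j : J) : te τ i * te τ j = (τ i j : J →₀ C) :=
  tmul0_single τ i j

theorem tab_induction {p : Tab τ → Prop} (h0 : p 0) (ha : ∀ x y, p x → p y → p (x + y))
    (hs : ∀ (c : C) (i : J), p (c • te τ i)) (x : Tab τ) : p x := by
  induction x using Finsupp.induction_linear with
  | zero => exact h0
  | add f g hf hg => exact ha f g hf hg
  | single i c =>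
    have := hs c i
    have e : (c • te τ i : Tab τ) = Finsupp.single i c := by
      change c • (Finsupp.single i (1 : C)) = _
      rw [Finsupp.smul_single, smul_eq_mul, mul_one]
    rwa [e] at this

/-- A linear map that is multiplicative on the basis is multiplicative. -/
theorem map_tab_mul {N : Type w} [NonUnitalNonAssocRing N] [Module C N] [IsScalarTower C N N]
    [SMulCommClass C N N] (f : Tab τ →ₗ[C] N)
    (h : ∀ i j, f (te τ i * te τ j) = f (te τ i) * f (te τ j)) (x y : Tab τ) :
    f (x * y) = f x * f y := by
  induction x using tab_induction with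
  | h0 => rw [zero_mul, map_zero, zero_mul]
  | ha x x' hx hx' => rw [add_mul, map_add, map_add, add_mul, hx, hx']
  | hs c i =>
    induction y using tab_induction with
    | h0 => rw [mul_zero, map_zero, mul_zero]
    | ha y y' hy hy' => rw [mul_add, map_add, map_add, mul_add, hy, hy']
    | hs d j =>
      rw [smul_mul_assoc, mul_smul_comm, map_smul, map_smul, h, map_smul, map_smul,
        smul_mul_assoc, mul_smul_comm]

theorem tab_comm (h : ∀ i j, τ i j = τ j i) (x y : Tab τ) : x * y = y * x := by
  induction x using tab_induction with
  | h0 => rw [zero_mul, mul_zero]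
  | ha x x' hx hx' => rw [add_mul, mul_add, hx, hx']
  | hs c i =>
    induction y using tab_induction with
    | h0 => rw [zero_mul, mul_zero]
    | ha y y' hy hy' => rw [add_mul, mul_add, hy, hy']
    | hs d j =>
      rw [smul_mul_assoc, mul_smul_comm, smul_mul_assoc, mul_smul_comm, te_mul_te, te_mul_te,
        h i j, smul_comm c d]

/-- Induction for squares in a commutative table algebra of characteristic two. -/
theorem tab_sq (hC : ∀ c : C, c + c = 0) (hcomm : ∀ i j, τ i j = τ j i)
    {p : Tab τ → Tab τ → Prop} (h0 : p 0 0)
    (ha : ∀ x y s t, p x s → p y t → p (x + y) (s + t))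
    (hs : ∀ (c : C) (i : J), p (c • te τ i) ((c * c) • (te τ i * te τ i))) (x : Tab τ) :
    p x (x * x) := by
  have h2 : ∀ z : Tab τ, z + z = 0 := by
    intro z
    have : (1 : C) • z + (1 : C) • z = 0 := by rw [← add_smul, hC, zero_smul]
    rwa [one_smul] at this
  induction x using tab_induction with
  | h0 => rw [zero_mul]; exact h0
  | ha x y hx hy =>
    have e : (x + y) * (x + y) = x * x + y * y := by
      rw [mul_add, add_mul, add_mul, tab_comm τ hcomm y x, add_assoc, ← add_assoc (x * y),
        h2, zero_add]
    rw [e]
    exact ha x y _ _ hx hy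
  | hs c i =>
    have := hs c i
    rwa [smul_mul_assoc, mul_smul_comm, smul_smul]

end Tab

end Pool.Agent.helper3.JC
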