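import Mathlib
import Pool.Agent.helper3.JC.Tab

/-!
Two-generated extensions of table algebras.
-/

namespace Pool.Agent.helper3.JC

open FreeNonUnitalNonAssocAlgebra

universe u v w

section Ext

variable {C : Type u} [CommRing C] {J : Type v} (τ : J → J → (J →₀ C))

/-- The product of two new basis elements `v_k`, `v_l`: `v_k v_k = δ v_k`, `v_0 v_l = v_(l+1)`,
`v_1 v_(l+3) = a_l`, all other products are zero. -/
noncomputable def chainT (δ : C) (a : ℕ → J) (k l : ℕ) : (J ⊕ ℕ) →₀ C :=
  if k = l then Finsupp.single (Sum.inr k) δ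
  else if k = 0 then Finsupp.single (Sum.inr (l + 1)) 1
  else if l = 0 then Finsupp.single (Sum.inr (k + 1)) 1
  else if k = 1 ∧ 3 ≤ l then Finsupp.single (Sum.inl (a (l - 3))) 1
  else if l = 1 ∧ 3 ≤ k then Finsupp.single (Sum.inl (a (k - 3))) 1
  else 0

/-- The table of the extension. -/
noncomputable def extT (χ : J → C) (δ : C) (a : ℕ → J) :
    J ⊕ ℕ → J ⊕ ℕ → ((J ⊕ ℕ) →₀ C)
  | Sum.inl i, Sum.inl j => Finsupp.mapDomain Sum.inl (τ i j)
  | Sum.inl i, Sum.inr k => Finsupp.single (Sum.inr k) (χ i)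
  | Sum.inr k, Sum.inl i => Finsupp.single (Sum.inr k) (χ i)
  | Sum.inr k, Sum.inr l => chainT δ a k l

variable (χ : J → C) (δ : C) (a : ℕ → J)

theorem chainT_symm (k l : ℕ) : chainT δ a k l = chainT δ a l k := by
  by_cases h : k = l
  · rw [h]
  · have h' : ¬ l = k := fun e => h e.symm
    unfold chainT
    by_cases hk : k = 0
    · have hl : ¬ l = 0 := by omega
      rw [if_neg h, if_pos hk, if_neg h', if_neg hl, if_pos hk]
    · by_cases hl : l = 0
      · rw [if_neg h, if_neg hk, if_pos hl, if_neg h', if_pos hl]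
      · by_cases h1 : k = 1 ∧ 3 ≤ l
        · have h2 : ¬ (l = 1 ∧ 3 ≤ k) := by omega
          rw [if_neg h, if_neg hk, if_neg hl, if_pos h1, if_neg h', if_neg hl, if_neg hk,
            if_neg h2, if_pos h1]
        · by_cases h2 : l = 1 ∧ 3 ≤ k
          · rw [if_neg h, if_neg hk, if_neg hl, if_neg h1, if_pos h2, if_neg h', if_neg hl,
              if_neg hk, if_pos h2]
          · rw [if_neg h, if_neg hk, if_neg hl, if_neg h1, if_neg h2, if_neg h', if_neg hl,
              if_neg hk, if_neg h2, if_neg h1]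

theorem extT_symm (h : ∀ i j, τ i j = τ j i) (x y : J ⊕ ℕ) :
    extT τ χ δ a x y = extT τ χ δ a y x := by
  rcases x with i | k
  · rcases y with j | l
    · exact congrArg (Finsupp.mapDomain Sum.inl) (h i j)
    · rfl
  · rcases y with j | l
    · rfl
    · exact chainT_symm δ a k l

theorem chain_step (k : ℕ) :
    te (extT τ χ δ a) (Sum.inr 0) * te (extT τ χ δ a) (Sum.inr (k + 1)) =
      te (extT τ χ δ a) (Sum.inr (k + 2)) := by
  rw [te_mul_te]
  change chainT δ a 0 (k + 1) = _
  unfold chainT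
  rw [if_neg (by omega), if_pos rfl]
  rfl

theorem chain_end (k : ℕ) :
    te (extT τ χ δ a) (Sum.inr 1) * te (extT τ χ δ a) (Sum.inr (k + 3)) =
      te (extT τ χ δ a) (Sum.inl (a k)) := by
  rw [te_mul_te]
  change chainT δ a 1 (k + 3) = _
  unfold chainT
  rw [if_neg (by omega), if_neg (by omega), if_neg (by omega), if_pos ⟨rfl, by omega⟩]
  rfl

/-- The embedding of the table algebra, as a linear map. -/
noncomputable def embL : Tab τ →ₗ[C] Tab (extT τ χ δ a) :=
  (Finsupp.lmapDomain C C Sum.inl : (J →₀ C) →ₗ[C] ((J ⊕ ℕ) →₀ C))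

theorem embL_te (i : J) : embL τ χ δ a (te τ i) = te (extT τ χ δ a) (Sum.inl i) :=
  Finsupp.mapDomain_single

/-- The embedding of the table algebra. -/
noncomputable def emb : Tab τ →ₙ+* Tab (extT τ χ δ a) where
  toFun x := embL τ χ δ a x
  map_zero' := map_zero _
  map_add' x y := map_add _ x y
  map_mul' x y := by
    refine map_tab_mul τ (embL τ χ δ a) (fun i j => ?_) x y
    rw [embL_te, embL_te, te_mul_te, te_mul_te]
    rfl

theorem emb_te (i : J) : emb τ χ δ a (te τ i) = te (extT τ χ δ a) (Sum.inl i) :=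
  embL_te τ χ δ a i

theorem emb_injective : Function.Injective (emb τ χ δ a) := by
  intro x y h
  exact Finsupp.mapDomain_injective Sum.inl_injective h

/-- Words in the free Jordan ring on `n ≥ 2` generators. -/
noncomputable def word {X : Type} (x y : FreeJordan X) : ℕ → FreeJordan X
  | 0 => y
  | k + 1 => x * word x y k

/-- An identity of the free Jordan ring on `n ≥ 2` generators vanishes at the elements `a_k` of
a table algebra whose extension is a Jordan ring. -/
theorem lift_te_eq_zero (hJ : JordanRing (Tab (extT τ χ δ a))) (n : ℕ) (hn : 2 ≤ n)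
    (f : FreeNonUnitalNonAssocAlgebra ℤ ℕ) (hf : Satisfies (FreeJordan (Fin n)) f) :
    lift ℤ (fun k => te τ (a k)) f = 0 := by
  let x : FreeJordan (Fin n) := fgen ⟨0, by omega⟩
  let y : FreeJordan (Fin n) := fgen ⟨1, by omega⟩
  let ψ : FreeJordan (Fin n) →ₙ+* Tab (extT τ χ δ a) :=
    freeLift hJ (fun i => te (extT τ χ δ a) (Sum.inr (i : ℕ)))
  have hx : ψ x = te (extT τ χ δ a) (Sum.inr 0) := freeLift_fgen hJ _ _
  have hy : ψ y = te (extT τ χ δ a) (Sum.inr 1) := freeLift_fgen hJ _ _
  have hw : ∀ k, ψ (word x y k) = te (extT τ χ δ a) (Sum.inr (k + 1)) := by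
    intro k
    induction k with
    | zero => exact hy
    | succ k ih =>
      change ψ (x * word x y k) = _
      rw [map_mul, hx, ih]
      exact chain_step τ χ δ a k
  have hW : ∀ k, ψ (y * word x y (k + 2)) = emb τ χ δ a (te τ (a k)) := by
    intro k
    rw [map_mul, hy, hw, emb_te]
    exact chain_end τ χ δ a k
  have key := lift_map ψ (fun k => y * word x y (k + 2)) f
  rw [hf _, map_zero] at key
  have e : (fun k => ψ (y * word x y (k + 2))) = fun k => emb τ χ δ a (te τ (a k)) :=
    funext hW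
  rw [e, lift_map (emb τ χ δ a) (fun k => te τ (a k)) f] at key
  exact emb_injective τ χ δ a (by rw [key, map_zero])

end Ext

end Pool.Agent.helper3.JC
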