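import Mathlib
import Pool.Agent.helper3.JC.Ext

/-!
Commutative algebras of characteristic two whose squares are scalars lie in every variety `C_n`,
`n ≥ 2`.
-/

namespace Pool.Agent.helper3.JC

open FreeNonUnitalNonAssocAlgebra

universe u v

open Classical in
/-- The table of the cover of a commutative algebra `A` with `x x = q x`: a unit and one basis
element for every element of `A`. -/
noncomputable def quadT {C : Type u} {A : Type v} [CommRing C] [Mul A] (q : A → C) :
    Option A → Option A → (Option A →₀ C)
  | none, j => Finsupp.single j 1
  | some x, none => Finsupp.single (some x) 1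
  | some x, some y =>
      if x = y then Finsupp.single none (q x) else Finsupp.single (some (x * y)) 1

section

variable {C : Type u} {A : Type v} [CommRing C] [NonAssocRing A] (q : A → C)

theorem quadT_eq (x : A) : quadT q (some x) (some x) = Finsupp.single none (q x) := by
  classical
  exact if_pos rfl

theorem quadT_ne {x y : A} (h : x ≠ y) :
    quadT q (some x) (some y) = Finsupp.single (some (x * y)) 1 := by
  classical
  exact if_neg h

theorem quadT_symm (hcomm : ∀ x y : A, x * y = y * x) (i j : Option A) :
    quadT q i j = quadT q j i := by
  rcases i with _ | x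
  · rcases j with _ | y
    · rfl
    · rfl
  · rcases j with _ | y
    · rfl
    · by_cases h : x = y
      · rw [h]
      · rw [quadT_ne q h, quadT_ne q (fun e => h e.symm), hcomm]

/-- The action of the basis of the cover on the new elements. -/
def quadChi : Option A → C
  | none => 1
  | some _ => 0

variable (a : ℕ → A)

/-- The table of the extension. -/
noncomputable abbrev quadE : Option A ⊕ ℕ → Option A ⊕ ℕ → ((Option A ⊕ ℕ) →₀ C) :=
  extT (quadT q) quadChi 0 (fun k => some (a k))

theorem quad_one_mul (x : Tab (quadE q a)) : te (quadE q a) (Sum.inl none) * x = x := by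
  induction x using tab_induction with
  | h0 => rw [mul_zero]
  | ha x y hx hy => rw [mul_add, hx, hy]
  | hs c i =>
    rw [mul_smul_comm, te_mul_te]
    rcases i with i | k
    · have : quadE q a (Sum.inl none) (Sum.inl i) = te (quadE q a) (Sum.inl i) := by
        change Finsupp.mapDomain Sum.inl (Finsupp.single i (1 : C)) = _
        rw [Finsupp.mapDomain_single]
        rfl
      rw [this]
    · rfl

theorem quad_sq (hC : ∀ c : C, c + c = 0) (hcomm : ∀ x y : A, x * y = y * x)
    (x : Tab (quadE q a)) : ∃ c : C, x * x = c • te (quadE q a) (Sum.inl none) := by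
  refine tab_sq (quadE q a) hC (extT_symm _ _ _ _ (quadT_symm q hcomm))
    (p := fun _ s => ∃ c : C, s = c • te (quadE q a) (Sum.inl none)) ?_ ?_ ?_ x
  · exact ⟨0, (zero_smul _ _).symm⟩
  · rintro x y s t ⟨c, rfl⟩ ⟨d, rfl⟩
    exact ⟨c + d, (add_smul _ _ _).symm⟩
  · intro c i
    rw [te_mul_te]
    rcases i with i | k
    · rcases i with _ | x
      · refine ⟨c * c, ?_⟩
        have : quadE q a (Sum.inl none) (Sum.inl none) =
            te (quadE q a) (Sum.inl none) := by
          change Finsupp.mapDomain Sum.inl (Finsupp.single none (1 : C)) = _
          rw [Finsupp.mapDomain_single]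
          rfl
        rw [this]
      · refine ⟨c * c * q x, ?_⟩
        have : quadE q a (Sum.inl (some x)) (Sum.inl (some x)) =
            (q x • te (quadE q a) (Sum.inl none) : Tab (quadE q a)) := by
          change Finsupp.mapDomain Sum.inl (quadT q (some x) (some x)) =
            q x • Finsupp.single (Sum.inl none) (1 : C)
          rw [quadT_eq, Finsupp.mapDomain_single, Finsupp.smul_single, smul_eq_mul, mul_one]
        rw [this, smul_smul]
    · refine ⟨0, ?_⟩
      have : quadE q a (Sum.inr k) (Sum.inr k) = (0 : Tab (quadE q a)) := by
        change chainT (0 : C) (fun k => some (a k)) k k = 0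
        unfold chainT
        rw [if_pos rfl, Finsupp.single_zero]
      rw [this, smul_zero, zero_smul]

theorem quad_jordanRing (hC : ∀ c : C, c + c = 0) (hcomm : ∀ x y : A, x * y = y * x) :
    JordanRing (Tab (quadE q a)) := by
  constructor
  · exact tab_comm _ (extT_symm _ _ _ _ (quadT_symm q hcomm))
  · intro x y
    obtain ⟨c, hc⟩ := quad_sq q a hC hcomm x
    rw [hc, smul_mul_assoc, quad_one_mul, smul_mul_assoc, smul_mul_assoc, quad_one_mul]

variable [Module C A]

/-- The image of the basis of the cover. -/
def quadPt : Option A → A
  | none => 1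
  | some x => x

/-- The map from the cover onto `A`. -/
noncomputable def quadPi : Tab (quadT q) →ₗ[C] A :=
  (Finsupp.linearCombination C quadPt : (Option A →₀ C) →ₗ[C] A)

theorem quadPi_single (i : Option A) (c : C) :
    quadPi q (Finsupp.single i c : Option A →₀ C) = c • quadPt i :=
  Finsupp.linearCombination_single C c i

theorem quadPi_te (i : Option A) : quadPi q (te (quadT q) i) = quadPt i := by
  have := quadPi_single q i 1
  rwa [one_smul] at this

variable [IsScalarTower C A A] [SMulCommClass C A A]

theorem quadPi_mul (hq : ∀ x : A, x * x = q x • 1) (x y : Tab (quadT q)) :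
    quadPi q (x * y) = quadPi q x * quadPi q y := by
  refine map_tab_mul (quadT q) (quadPi q) (fun i j => ?_) x y
  rw [te_mul_te, quadPi_te, quadPi_te]
  rcases i with _ | x
  · change quadPi q (Finsupp.single j 1 : Option A →₀ C) = 1 * quadPt j
    rw [quadPi_single, one_smul, one_mul]
  · rcases j with _ | y
    · change quadPi q (Finsupp.single (some x) 1 : Option A →₀ C) = x * 1
      rw [quadPi_single, one_smul, mul_one]
      rfl
    · by_cases h : x = y
      · subst h
        rw [quadT_eq, quadPi_single]
        exact (hq x).symm
      · rw [quadT_ne q h, quadPi_single, one_smul]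
        rfl

/-- Commutative algebras of characteristic two whose squares are scalars. -/
theorem inVariety_of_quad (hC : ∀ c : C, c + c = 0) (hcomm : ∀ x y : A, x * y = y * x)
    (hq : ∀ x : A, x * x = q x • 1) (n : ℕ) (hn : 2 ≤ n) : InVariety n A := by
  intro f hf b
  have key := lift_te_eq_zero (quadT q) quadChi 0 (fun k => some (b k))
    (quad_jordanRing q b hC hcomm) n hn f hf
  let π : Tab (quadT q) →ₙ+* A :=
    { toFun := fun x => quadPi q x
      map_zero' := map_zero _
      map_add' := fun x y => map_add _ x y
      map_mul' := quadPi_mul q hq }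
  have h1 := lift_map π (fun k => te (quadT q) (some (b k))) f
  rw [key, map_zero] at h1
  have e : (fun k => π (te (quadT q) (some (b k)))) = b :=
    funext (fun k => quadPi_te q (some (b k)))
  rwa [e] at h1

end

end Pool.Agent.helper3.JC
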