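import Mathlib
import Pool.Agent.helper3.JC.Quad

/-!
Rings of characteristic two in the varieties generated by free Jordan rings.
-/

namespace Pool.Agent.helper3.JC

open FreeNonUnitalNonAssocAlgebra

universe u v

/-! ### Unital rings with central squares -/

section Center

variable (A : Type u) [NonAssocRing A]

/-- The center of a nonassociative ring, a commutative ring. -/
def Cen : Type u := Subring.center A

noncomputable instance : CommRing (Cen A) :=
  { (inferInstance : NonAssocRing (Subring.center A)),
    (Subsemiring.center.commSemiring' A : CommSemiring (Subsemiring.center A)) with }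

variable {A}

/-- The inclusion of the center. -/
def Cen.val (c : Cen A) : A := Subtype.val c

theorem Cen.val_add (c d : Cen A) : (c + d).val = c.val + d.val := rfl

theorem Cen.val_mul (c d : Cen A) : (c * d).val = c.val * d.val := rfl

theorem Cen.val_zero : (0 : Cen A).val = 0 := rfl

theorem Cen.val_one : (1 : Cen A).val = 1 := rfl

theorem Cen.central (c : Cen A) : c.val ∈ Set.center A := Subtype.property c

theorem Cen.ext {c d : Cen A} (h : c.val = d.val) : c = d := Subtype.ext h

noncomputable instance : Module (Cen A) A where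
  smul c x := c.val * x
  one_smul x := by
    change (1 : Cen A).val * x = x
    rw [Cen.val_one, one_mul]
  mul_smul c d x := by
    change (c * d).val * x = c.val * (d.val * x)
    rw [Cen.val_mul]
    exact (c.central.left_assoc d.val x).symm
  smul_zero c := mul_zero c.val
  smul_add c x y := mul_add c.val x y
  add_smul c d x := by
    change (c + d).val * x = c.val * x + d.val * x
    rw [Cen.val_add, add_mul]
  zero_smul x := by
    change (0 : Cen A).val * x = 0
    rw [Cen.val_zero, zero_mul]

theorem cen_smul (c : Cen A) (x : A) : c • x = c.val * x := rfl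

instance : IsScalarTower (Cen A) A A :=
  ⟨fun c x y => (c.central.left_assoc x y).symm⟩

end Center

theorem inVariety_of_sq_mem_center (A : Type u) [NonAssocRing A]
    (hcomm : ∀ x y : A, x * y = y * x) (h2 : ∀ x : A, x + x = 0)
    (hsq : ∀ x : A, x * x ∈ Set.center A) (n : ℕ) (hn : 2 ≤ n) : InVariety n A := by
  have i4 : SMulCommClass (Cen A) A A :=
    ⟨fun c x y => by
      change c.val * (x * y) = x * (c.val * y)
      rw [hcomm c.val (x * y), hcomm c.val y]
      exact c.central.right_assoc x y⟩
  have hC : ∀ c : Cen A, c + c = 0 := fun c => Cen.ext (h2 c.val)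
  let q : A → Cen A := fun x => ⟨x * x, hsq x⟩
  exact inVariety_of_quad q hC hcomm (fun x => (mul_one (x * x)).symm) n hn

/-! ### Adjoining a unit -/

section Unit

theorem zmod2_cases (c : ZMod 2) : c = 0 ∨ c = 1 := by
  fin_cases c
  · exact Or.inl rfl
  · exact Or.inr rfl

variable {R : Type u} [NonUnitalNonAssocRing R]

theorem zmod2_tower [Module (ZMod 2) R] : IsScalarTower (ZMod 2) R R := ⟨fun c x y => by
  change (c • x) * y = c • (x * y)
  rcases zmod2_cases c with rfl | rfl
  · rw [zero_smul, zero_smul, zero_mul]
  · rw [one_smul, one_smul]⟩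

theorem zmod2_comm [Module (ZMod 2) R] : SMulCommClass (ZMod 2) R R := ⟨fun c x y => by
  change c • (x * y) = x * (c • y)
  rcases zmod2_cases c with rfl | rfl
  · rw [zero_smul, zero_smul, mul_zero]
  · rw [one_smul, one_smul]⟩

variable [Module (ZMod 2) R]

theorem unit_comm (hcomm : ∀ x y : R, x * y = y * x) (x y : Unitization (ZMod 2) R) :
    x * y = y * x := by
  refine Unitization.ext ?_ ?_
  · rw [Unitization.fst_mul, Unitization.fst_mul, mul_comm]
  · rw [Unitization.snd_mul, Unitization.snd_mul, hcomm x.snd y.snd, add_comm (x.fst • y.snd)]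

omit [Module (ZMod 2) R] in
theorem unit_two (h2 : ∀ x : R, x + x = 0) (x : Unitization (ZMod 2) R) : x + x = 0 := by
  have hz : ∀ c : ZMod 2, c + c = 0 := by decide
  refine Unitization.ext ?_ ?_
  · rw [Unitization.fst_add]
    exact hz _
  · rw [Unitization.snd_add]
    exact h2 _

theorem unit_nuc (h2 : ∀ x : R, x + x = 0)
    (hN : ∀ x y z : R, ((x * x) * y) * z = (x * x) * (y * z)) (x y z : Unitization (ZMod 2) R) :
    (x * x) * (y * z) = ((x * x) * y) * z := by
  have t1 : IsScalarTower (ZMod 2) R R := zmod2_tower
  have t2 : SMulCommClass (ZMod 2) R R := zmod2_comm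
  have hs : (x * x).snd = x.snd * x.snd := by
    rw [Unitization.snd_mul, h2, zero_add]
  generalize x * x = w at hs
  refine Unitization.ext ?_ ?_
  · rw [Unitization.fst_mul, Unitization.fst_mul, Unitization.fst_mul, Unitization.fst_mul,
      mul_assoc]
  · simp only [Unitization.snd_mul, Unitization.fst_mul, hs, smul_add, mul_add, add_mul,
      smul_mul_assoc, mul_smul_comm, hN, smul_smul]
    rw [mul_comm w.fst z.fst, mul_comm y.fst z.fst]
    abel

/-- Commutative rings of characteristic two with nuclear squares. -/
theorem inVariety_of_nuclear (R : Type u) [NonUnitalNonAssocRing R] (h2 : ∀ x : R, 2 • x = 0)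
    (hcomm : ∀ x y : R, x * y = y * x)
    (hN : ∀ x y z : R, ((x * x) * y) * z = (x * x) * (y * z)) (n : ℕ) (hn : 2 ≤ n) :
    InVariety n R := by
  have h2' : ∀ x : R, x + x = 0 := fun x => by rw [← two_nsmul]; exact h2 x
  let m1 : Module (ZMod 2) R := AddCommGroup.zmodModule h2
  have hcA := unit_comm (R := R) hcomm
  have hcen : ∀ x : Unitization (ZMod 2) R, x * x ∈ Set.center (Unitization (ZMod 2) R) := by
    intro x
    have l := unit_nuc h2' hN x
    refine ⟨fun y => hcA _ _, fun b c => l b c, fun a b => ?_⟩
    rw [hcA (a * b) (x * x), hcA b (x * x), hcA a ((x * x) * b), hcA a b, l b a]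
  let ψ : R →ₙ+* Unitization (ZMod 2) R :=
    { toFun := fun x => (x : Unitization (ZMod 2) R)
      map_zero' := Unitization.inr_zero (ZMod 2)
      map_add' := fun x y => Unitization.inr_add (ZMod 2) x y
      map_mul' := fun x y => Unitization.inr_mul (ZMod 2) x y }
  exact inVariety_of_injective n ψ Unitization.inr_injective
    (inVariety_of_sq_mem_center (Unitization (ZMod 2) R) hcA (unit_two h2') hcen n hn)

end Unit

/-! ### Jordan algebras over rings with enough scalars -/

section Alg

variable {R : Type u} [NonUnitalNonAssocRing R]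

theorem jordan_polar (h2 : ∀ x : R, x + x = 0) (hJ : JordanRing R) (x z y : R) :
    ((x * x) * y) * z + (x * x) * (y * z) = ((z * z) * y) * x + (z * z) * (y * x) := by
  have hsq : (x + z) * (x + z) = x * x + z * z := by
    rw [mul_add, add_mul, add_mul, hJ.1 z x, add_assoc, ← add_assoc (x * z), h2, zero_add]
  have h := hJ.2 (x + z) y
  rw [hsq] at h
  simp only [add_mul, mul_add] at h
  rw [hJ.2 x y, hJ.2 z y] at h
  have e : ∀ a b : R, a = b → a + b = 0 := fun a b hab => by rw [hab, h2]
  have h' := e _ _ h
  have g : ((x * x) * y) * z + (x * x) * (y * z) +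
      (((z * z) * y) * x + (z * z) * (y * x)) = 0 := by
    have i1 := h2 (x * x * (y * x))
    have i2 := h2 (z * z * (y * z))
    calc ((x * x) * y) * z + (x * x) * (y * z) +
        (((z * z) * y) * x + (z * z) * (y * x))
        = (x * x * (y * x) + z * z * y * x + (x * x * y * z + z * z * (y * z)) +
            (x * x * (y * x) + z * z * (y * x) + (x * x * (y * z) + z * z * (y * z)))) -
            (x * x * (y * x) + x * x * (y * x)) - (z * z * (y * z) + z * z * (y * z)) := by
          abel
      _ = 0 := by rw [h', i1, i2, sub_zero, sub_zero]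
  have n : ∀ a b : R, a + b = 0 → a = b := fun a b hab => by
    have := h2 b
    rw [← this] at hab
    exact add_right_cancel hab
  exact n _ _ g

/-- Jordan algebras of characteristic two over a ring with an element `c` such that `c² - c` is
invertible. -/
theorem nuclear_of_scalar (h2 : ∀ x : R, x + x = 0) (hJ : JordanRing R) {K : Type v} [CommRing K]
    [Module K R] [IsScalarTower K R R] [SMulCommClass K R R] (c : K) (hc : IsUnit (c * c - c))
    (x y z : R) : ((x * x) * y) * z = (x * x) * (y * z) := by
  have h1 := jordan_polar h2 hJ x z y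
  have h3 := jordan_polar h2 hJ x (c • z) y
  simp only [smul_mul_assoc, mul_smul_comm, smul_smul] at h3
  rw [← smul_add, ← smul_add, ← h1] at h3
  have h4 : (c * c - c) • ((x * x * y) * z + (x * x) * (y * z)) = 0 := by
    rw [sub_smul, ← h3, sub_self]
  obtain ⟨u, hu⟩ := hc
  rw [← hu] at h4
  have h5 : (x * x * y) * z + (x * x) * (y * z) = 0 := by
    have := congrArg (fun t => (u⁻¹ : Kˣ) • t) h4
    simpa [Units.smul_def, smul_smul] using this
  have := h2 ((x * x) * (y * z))
  rw [← this] at h5
  exact add_right_cancel h5

end Alg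

end Pool.Agent.helper3.JC
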