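import Mathlib
import Pool.Agent.helper3.JC.Main

/-!
Commutative nonassociative rings with `x² = x` lie in every variety `C_n`, `n ≥ 2`.
-/

namespace Pool.Agent.helper3.JC

open FreeNonUnitalNonAssocAlgebra

universe u

section Bool

variable (R : Type u) [NonUnitalNonAssocRing R]

/-- The table of the cover: one basis element for every element of `R`. -/
noncomputable def boolT : R → R → (R →₀ ZMod 2) := fun x y => Finsupp.single (x * y) 1

variable {R} (a : ℕ → R)

/-- The table of the extension. -/
noncomputable abbrev boolE : R ⊕ ℕ → R ⊕ ℕ → ((R ⊕ ℕ) →₀ ZMod 2) :=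
  extT (boolT R) (fun _ => 0) 1 a

theorem boolE_diag (hb : ∀ x : R, x * x = x) (i : R ⊕ ℕ) :
    te (boolE a) i * te (boolE a) i = te (boolE a) i := by
  rw [te_mul_te]
  rcases i with x | k
  · change Finsupp.mapDomain Sum.inl (Finsupp.single (x * x) (1 : ZMod 2)) =
      (Finsupp.single (Sum.inl x) (1 : ZMod 2) : (R ⊕ ℕ) →₀ ZMod 2)
    rw [Finsupp.mapDomain_single, hb]
  · change chainT (1 : ZMod 2) a k k = Finsupp.single (Sum.inr k) (1 : ZMod 2)
    unfold chainT
    rw [if_pos rfl]

theorem boolE_symm (hcomm : ∀ x y : R, x * y = y * x) (i j : R ⊕ ℕ) :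
    boolE a i j = boolE a j i :=
  extT_symm _ _ _ _ (fun x y => by unfold boolT; rw [hcomm]) i j

theorem boolE_jordanRing (hcomm : ∀ x y : R, x * y = y * x) (hb : ∀ x : R, x * x = x) :
    JordanRing (Tab (boolE a)) := by
  have hc := tab_comm _ (boolE_symm a hcomm)
  have hC : ∀ c : ZMod 2, c + c = 0 := by decide
  have hCC : ∀ c : ZMod 2, c * c = c := by decide
  have hs : ∀ x : Tab (boolE a), x * x = x := by
    intro x
    refine tab_sq (boolE a) hC (boolE_symm a hcomm) (p := fun x s => s = x) rfl ?_ ?_ x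
    · rintro x y s t rfl rfl
      rfl
    · intro c i
      rw [boolE_diag a hb, hCC]
  refine ⟨hc, fun x y => ?_⟩
  rw [hs, hc (x * y) x, hc y x]

/-- Commutative rings with `x² = x`. -/
theorem inVariety_of_boolean (R : Type u) [NonUnitalNonAssocRing R]
    (hcomm : ∀ x y : R, x * y = y * x) (hb : ∀ x : R, x * x = x) (n : ℕ) (hn : 2 ≤ n) :
    InVariety n R := by
  have h2 : ∀ x : R, 2 • x = 0 := by
    intro x
    have h := hb (x + x)
    rw [mul_add, add_mul, hb] at h
    rw [two_nsmul]
    have h' : (x + x) + (x + x) = (x + x) + 0 := by rw [add_zero]; exact h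
    exact add_left_cancel h'
  let m1 : Module (ZMod 2) R := AddCommGroup.zmodModule h2
  have t1 : IsScalarTower (ZMod 2) R R := zmod2_tower
  have t2 : SMulCommClass (ZMod 2) R R := zmod2_comm
  intro f hf b
  have key := lift_te_eq_zero (boolT R) (fun _ => 0) 1 b (boolE_jordanRing b hcomm hb) n hn f hf
  let π0 : Tab (boolT R) →ₗ[ZMod 2] R :=
    (Finsupp.linearCombination (ZMod 2) id : (R →₀ ZMod 2) →ₗ[ZMod 2] R)
  have hπ : ∀ x : R, π0 (te (boolT R) x) = x := by
    intro x
    have : π0 (te (boolT R) x) = (1 : ZMod 2) • x := Finsupp.linearCombination_single _ _ _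
    rw [this, one_smul]
  have hm : ∀ x y : Tab (boolT R), π0 (x * y) = π0 x * π0 y := by
    refine map_tab_mul (boolT R) π0 (fun i j => ?_)
    rw [te_mul_te, hπ, hπ]
    exact hπ (i * j)
  let π : Tab (boolT R) →ₙ+* R :=
    { toFun := fun x => π0 x
      map_zero' := map_zero _
      map_add' := fun x y => map_add _ x y
      map_mul' := hm }
  have h1 := lift_map π (fun k => te (boolT R) (b k)) f
  rw [key, map_zero] at h1
  have e : (fun k => π (te (boolT R) (b k))) = b := funext (fun k => hπ (b k))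
  rwa [e] at h1

end Bool

end Pool.Agent.helper3.JC
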